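import Mathlib

set_option autoImplicit false

/-! Relations between words over three letters that are defined by existential formulas in terms of
the subword ordering and prefixing of letters. -/

namespace Pool.Agent.X238.Rpo

/-- words -/
abbrev Wd := List (Fin 3)

/-- terms -/
inductive WTm (V : Type) : Type
  | var (v : V) : WTm V
  | nil : WTm V
  | cons (x : Fin 3) (t : WTm V) : WTm V

def WTm.val {V : Type} (e : V → Wd) : WTm V → Wd
  | .var v => e v
  | .nil => []
  | .cons x t => x :: t.val e

def WTm.map {V W : Type} (f : V → W) : WTm V → WTm W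
  | .var v => .var (f v)
  | .nil => .nil
  | .cons x t => .cons x (t.map f)

theorem WTm.val_map {V W : Type} (f : V → W) (t : WTm V) (e : W → Wd) :
    (t.map f).val e = t.val (e ∘ f) := by
  induction t with
  | var v => rfl
  | nil => rfl
  | cons x t ih => simp only [WTm.map, WTm.val, ih]

/-- literals -/
inductive Lit (V : Type) : Type
  | sub (s t : WTm V) : Lit V
  | nsub (s t : WTm V) : Lit V

def Lit.Holds {V : Type} (e : V → Wd) : Lit V → Prop
  | .sub s t => (s.val e).Sublist (t.val e)
  | .nsub s t => ¬ (s.val e).Sublist (t.val e)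

def Lit.map {V W : Type} (f : V → W) : Lit V → Lit W
  | .sub s t => .sub (s.map f) (t.map f)
  | .nsub s t => .nsub (s.map f) (t.map f)

theorem Lit.holds_map {V W : Type} (f : V → W) (l : Lit V) (e : W → Wd) :
    (l.map f).Holds e ↔ l.Holds (e ∘ f) := by
  cases l <;> simp only [Lit.map, Lit.Holds, WTm.val_map]

/-- existentially definable relations -/
def Df (V : Type) (R : (V → Wd) → Prop) : Prop :=
  ∃ (W : Type) (_ : Fintype W) (L : List (Lit (V ⊕ W))),
    ∀ v, R v ↔ ∃ w : W → Wd, ∀ l ∈ L, l.Holds (Sum.elim v w)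

theorem Df.congr {V : Type} {R R' : (V → Wd) → Prop} (h : Df V R) (e : ∀ v, R' v ↔ R v) :
    Df V R' := by
  obtain ⟨W, i, L, hL⟩ := h
  exact ⟨W, i, L, fun v => (e v).trans (hL v)⟩

theorem Df.reindex {V V' : Type} {R : (V → Wd) → Prop} (h : Df V R) (f : V → V') :
    Df V' (fun v => R (v ∘ f)) := by
  obtain ⟨W, i, L, hL⟩ := h
  refine ⟨W, i, L.map (Lit.map (Sum.map f id)), fun v => (hL _).trans ?_⟩
  refine exists_congr fun y => ?_
  have e : Sum.elim v y ∘ Sum.map f id = Sum.elim (v ∘ f) y := by
    funext g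
    rcases g with g | g <;> rfl
  constructor
  · intro hy c hc
    rw [List.mem_map] at hc
    obtain ⟨c, hc, rfl⟩ := hc
    rw [Lit.holds_map, e]
    exact hy c hc
  · intro hy c hc
    have := hy _ (List.mem_map_of_mem hc)
    rwa [Lit.holds_map, e] at this

theorem Df.and {V : Type} {R R' : (V → Wd) → Prop} (h : Df V R) (h' : Df V R') :
    Df V (fun v => R v ∧ R' v) := by
  obtain ⟨W, i, L, hL⟩ := h
  obtain ⟨W', i', L', hL'⟩ := h'
  refine ⟨W ⊕ W', inferInstance, L.map (Lit.map (Sum.map id Sum.inl)) ++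
    L'.map (Lit.map (Sum.map id Sum.inr)), fun v => ?_⟩
  have e : ∀ y : W ⊕ W' → Wd, Sum.elim v y ∘ Sum.map id Sum.inl = Sum.elim v (y ∘ Sum.inl) := by
    intro y
    funext g
    rcases g with g | g <;> rfl
  have e' : ∀ y : W ⊕ W' → Wd, Sum.elim v y ∘ Sum.map id Sum.inr = Sum.elim v (y ∘ Sum.inr) := by
    intro y
    funext g
    rcases g with g | g <;> rfl
  constructor
  · rintro ⟨h1, h2⟩
    obtain ⟨w, hw⟩ := (hL v).1 h1
    obtain ⟨w', hw'⟩ := (hL' v).1 h2
    refine ⟨Sum.elim w w', fun l hl => ?_⟩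
    rw [List.mem_append, List.mem_map, List.mem_map] at hl
    rcases hl with ⟨l, hl, rfl⟩ | ⟨l, hl, rfl⟩
    · rw [Lit.holds_map, e]
      exact hw l hl
    · rw [Lit.holds_map, e']
      exact hw' l hl
  · rintro ⟨y, hy⟩
    refine ⟨(hL v).2 ⟨y ∘ Sum.inl, fun l hl => ?_⟩, (hL' v).2 ⟨y ∘ Sum.inr, fun l hl => ?_⟩⟩
    · rw [← e, ← Lit.holds_map]
      exact hy _ (List.mem_append_left _ (List.mem_map_of_mem hl))
    · rw [← e', ← Lit.holds_map]
      exact hy _ (List.mem_append_right _ (List.mem_map_of_mem hl))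

/-- existential quantification -/
theorem Df.ex {V : Type} {R : Wd → (V → Wd) → Prop}
    (h : Df (Option V) (fun w => R (w none) (fun v => w (some v)))) :
    Df V (fun v => ∃ t, R t v) := by
  obtain ⟨W, i, L, hL⟩ := h
  let f : Option V ⊕ W → V ⊕ Option W := fun g => match g with
    | .inl none => .inr none
    | .inl (some v) => .inl v
    | .inr w => .inr (some w)
  have e : ∀ (v : V → Wd) (y : Option W → Wd), Sum.elim v y ∘ f =
      Sum.elim (fun o => match o with
        | none => y none
        | some v' => v v') (fun w => y (some w)) := by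
    intro v y
    funext g
    rcases g with (_ | g) | g <;> rfl
  refine ⟨Option W, inferInstance, L.map (Lit.map f), fun v => ?_⟩
  constructor
  · rintro ⟨t, ht⟩
    have := (hL (fun o => match o with
        | none => t
        | some v' => v v')).1 ht
    obtain ⟨w, hw⟩ := this
    refine ⟨fun o => match o with
      | none => t
      | some w' => w w', fun l hl => ?_⟩
    rw [List.mem_map] at hl
    obtain ⟨l, hl, rfl⟩ := hl
    rw [Lit.holds_map, e]
    exact hw l hl
  · rintro ⟨y, hy⟩
    refine ⟨y none, (hL (fun o => match o with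
        | none => y none
        | some v' => v v')).2 ⟨fun w => y (some w), fun l hl => ?_⟩⟩
    rw [← e, ← Lit.holds_map]
    exact hy _ (List.mem_map_of_mem hl)

/-- a literal -/
theorem Df.lit {V : Type} (l : Lit V) : Df V (fun v => l.Holds v) := by
  refine ⟨Empty, inferInstance, [l.map Sum.inl], fun v => ?_⟩
  constructor
  · intro h
    refine ⟨Empty.elim, fun l' hl' => ?_⟩
    rw [List.mem_singleton] at hl'
    subst hl'
    rw [Lit.holds_map]
    exact h
  · rintro ⟨w, hw⟩
    have := hw _ (List.mem_singleton.2 rfl)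
    rwa [Lit.holds_map] at this

theorem Df.sub {V : Type} (s t : WTm V) : Df V (fun v => (s.val v).Sublist (t.val v)) :=
  Df.lit (.sub s t)

theorem Df.nsub {V : Type} (s t : WTm V) : Df V (fun v => ¬ (s.val v).Sublist (t.val v)) :=
  Df.lit (.nsub s t)

theorem Df.true {V : Type} : Df V (fun _ => True) :=
  ⟨Empty, inferInstance, [], fun v => ⟨fun _ => ⟨Empty.elim, fun l hl => by simp at hl⟩,
    fun _ => trivial⟩⟩

theorem Df.listAll {V : Type} {α : Type} (l : List α) {R : α → (V → Wd) → Prop}
    (h : ∀ a ∈ l, Df V (R a)) : Df V (fun v => ∀ a ∈ l, R a v) := by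
  induction l with
  | nil => exact Df.true.congr fun v => by simp
  | cons a l ih =>
    refine ((h a List.mem_cons_self).and (ih fun b hb => h b (List.mem_cons_of_mem a hb))).congr
      fun v => ?_
    simp

/-- equality of two terms -/
theorem Df.eq {V : Type} (s t : WTm V) : Df V (fun v => s.val v = t.val v) := by
  refine ((Df.sub s t).and (Df.sub t s)).congr fun v => ?_
  constructor
  · intro h
    rw [h]
    exact ⟨List.Sublist.refl _, List.Sublist.refl _⟩
  · rintro ⟨h1, h2⟩
    exact h1.eq_of_length_le h2.length_le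

/-! ### words in terms of counting -/

/-- the word consists of letters `x` only -/
def Pw (x : Fin 3) (u : Wd) : Prop := ∃ n, u = List.replicate n x

theorem notin_iff (x : Fin 3) (u : Wd) : x ∉ u ↔ ¬ [x].Sublist u := by
  rw [List.singleton_sublist]

theorem Pw_iff (x : Fin 3) (u : Wd) : Pw x u ↔ ∀ y, y ≠ x → y ∉ u := by
  constructor
  · rintro ⟨n, rfl⟩ y hy h
    exact hy (List.eq_of_mem_replicate h)
  · intro h
    refine ⟨u.length, List.eq_replicate_iff.2 ⟨rfl, fun b hb => ?_⟩⟩
    by_contra hne
    exact h b hne hb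

theorem df_notin {V : Type} (x : Fin 3) (t : WTm V) : Df V (fun v => x ∉ t.val v) :=
  (Df.nsub (.cons x .nil) t).congr fun v => notin_iff x _

theorem df_Pw {V : Type} (x : Fin 3) (t : WTm V) : Df V (fun v => Pw x (t.val v)) := by
  have h : ∀ y ∈ (Finset.univ.toList : List (Fin 3)), Df V (fun v => y ≠ x → y ∉ t.val v) := by
    intro y _
    by_cases hy : y = x
    · exact Df.true.congr fun _ => by simp [hy]
    · exact (df_notin y t).congr fun v => by simp [hy]
  refine (Df.listAll _ h).congr fun v => ?_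
  rw [Pw_iff]
  simp

theorem replicate_sublist (x : Fin 3) (n : ℕ) (u : Wd) :
    (List.replicate n x).Sublist u ↔ n ≤ u.count x := by
  rw [List.replicate_sublist_iff]

/-- `t` is the power of `x` whose exponent is the number of the letters `x` in `u` -/
def Cnt (x : Fin 3) (t u : Wd) : Prop := t = List.replicate (u.count x) x

theorem df_Cnt {V : Type} (x : Fin 3) (t u : WTm V) :
    Df V (fun v => Cnt x (t.val v) (u.val v)) := by
  refine ((df_Pw x t).and ((Df.sub t u).and (Df.nsub (.cons x t) u))).congr fun v => ?_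
  constructor
  · intro h
    have h : t.val v = List.replicate ((u.val v).count x) x := h
    refine ⟨⟨_, h⟩, ?_, ?_⟩
    · rw [h, replicate_sublist]
    · change ¬ (x :: t.val v).Sublist _
      rw [h, ← List.replicate_succ, replicate_sublist]
      omega
  · rintro ⟨⟨n, hn⟩, h1, h2⟩
    have h2 : ¬ (x :: t.val v).Sublist (u.val v) := h2
    rw [hn, replicate_sublist] at h1
    rw [hn, ← List.replicate_succ, replicate_sublist] at h2
    change t.val v = _
    rw [hn]
    congr 1
    omega

/-- equal numbers of letters `x` -/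
theorem df_eqCount {V : Type} (x : Fin 3) (s t : WTm V) :
    Df V (fun v => (s.val v).count x = (t.val v).count x) := by
  have h : Df (Option V) (fun w =>
      Cnt x ((WTm.var (none : Option V)).val w) ((s.map some).val w) ∧
      Cnt x ((WTm.var (none : Option V)).val w) ((t.map some).val w)) :=
    (df_Cnt x _ _).and (df_Cnt x _ _)
  have h' := Df.ex (V := V) (R := fun a v => Cnt x a (s.val v) ∧ Cnt x a (t.val v)) (by
    refine h.congr fun w => ?_
    rw [WTm.val_map, WTm.val_map]
    rfl)
  refine h'.congr fun v => ?_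
  constructor
  · intro h
    exact ⟨_, rfl, by unfold Cnt; rw [h]⟩
  · rintro ⟨a, h1, h2⟩
    unfold Cnt at h1 h2
    rw [h1] at h2
    have := congrArg List.length h2
    simpa using this

/-! ### concatenation -/

theorem length_eq (u : Wd) : u.length = u.count 0 + u.count 1 + u.count 2 := by
  induction u with
  | nil => rfl
  | cons x u ih =>
    fin_cases x <;> simp [ih] <;> omega

theorem eq_of_sublist {u v : Wd} (h : u.Sublist v) (h0 : v.count 0 ≤ u.count 0)
    (h1 : v.count 1 ≤ u.count 1) (h2 : v.count 2 ≤ u.count 2) : u = v := by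
  refine h.eq_of_length_le ?_
  rw [length_eq u, length_eq v]
  omega

theorem count_two_zero {u : Wd} (h : 2 ∉ u) : u.count 2 = 0 := List.count_eq_zero.2 h

theorem split_one {z : Wd} (h : z.count 2 = 1) : ∃ z1 z2 : Wd, z = z1 ++ 2 :: z2 ∧ 2 ∉ z1 ∧ 2 ∉ z2 := by
  have h1 : 2 ∈ z := by
    rw [← List.count_pos_iff]
    omega
  obtain ⟨z1, z2, hz, h2⟩ := List.eq_append_cons_of_mem h1
  refine ⟨z1, z2, hz, h2, ?_⟩
  rw [hz] at h
  simp only [List.count_append, List.count_cons_self] at h
  rw [← List.count_eq_zero]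
  omega

theorem right_iff {z1 z2 v : Wd} (h1 : 2 ∉ z1) :
    (2 :: v).Sublist (z1 ++ 2 :: z2) ↔ v.Sublist z2 := by
  constructor
  · intro h
    obtain ⟨l1, l2, hl, hl1, hl2⟩ := List.sublist_append_iff.1 h
    cases l1 with
    | nil =>
      rw [List.nil_append] at hl
      rw [← hl] at hl2
      exact List.cons_sublist_cons.1 hl2
    | cons x l1 =>
      rw [List.cons_append, List.cons.injEq] at hl
      obtain ⟨rfl, -⟩ := hl
      exact absurd (hl1.subset List.mem_cons_self) h1
  · intro h
    exact (List.cons_sublist_cons.2 h).trans (List.sublist_append_right _ _)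

theorem left_iff {z1 z2 p : Wd} (h2 : 2 ∉ z2) :
    (p ++ [2]).Sublist (z1 ++ 2 :: z2) ↔ p.Sublist z1 := by
  rw [← List.reverse_sublist]
  simp only [List.reverse_append, List.reverse_cons, List.reverse_nil, List.nil_append,
    List.singleton_append, List.append_assoc]
  rw [right_iff (by simpa using h2), List.reverse_sublist]

/-- exactly one letter `2` -/
theorem df_one {V : Type} (t : WTm V) : Df V (fun v => (t.val v).count 2 = 1) := by
  refine ((Df.sub (.cons 2 .nil) t).and (Df.nsub (.cons 2 (.cons 2 .nil)) t)).congr fun v => ?_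
  change _ ↔ (List.replicate 1 2).Sublist _ ∧ ¬ (List.replicate 2 2).Sublist _
  rw [replicate_sublist, replicate_sublist]
  omega

/-- `p = p1 ++ [2]` with `p1` without `2` -/
def Ends (p : Wd) : Prop := ∃ p1 : Wd, p = p1 ++ [2] ∧ 2 ∉ p1

theorem df_Ends {V : Type} (t : WTm V) : Df V (fun v => Ends (t.val v)) := by
  refine ((df_one t).and ((Df.nsub (.cons 2 (.cons 0 .nil)) t).and
    (Df.nsub (.cons 2 (.cons 1 .nil)) t))).congr fun v => ?_
  change _ ↔ _ ∧ ¬ (2 :: [0]).Sublist _ ∧ ¬ (2 :: [1]).Sublist _
  constructor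
  · rintro ⟨p1, hp, h2⟩
    rw [hp]
    refine ⟨?_, ?_, ?_⟩
    · rw [List.count_append, count_two_zero h2]
      rfl
    · rw [right_iff h2]
      simp
    · rw [right_iff h2]
      simp
  · rintro ⟨h1, h2, h3⟩
    obtain ⟨z1, z2, hz, k1, k2⟩ := split_one h1
    rw [hz, right_iff k1] at h2 h3
    refine ⟨z1, ?_, k1⟩
    rw [hz]
    congr 2
    rw [List.eq_nil_iff_forall_not_mem]
    intro x hx
    fin_cases x
    · exact h2 (List.singleton_sublist.2 hx)
    · exact h3 (List.singleton_sublist.2 hx)
    · exact k2 hx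

/-- the part of `z` after the letter `2` is `v` -/
def RightPart (v z : Wd) : Prop := ∃ z1 : Wd, z = z1 ++ 2 :: v ∧ 2 ∉ z1 ∧ 2 ∉ v

theorem df_RightPart {V : Type} (s t : WTm V) : Df V (fun v => RightPart (s.val v) (t.val v)) := by
  have hx : ∀ x : Fin 3, Df V (fun v => ∃ r : Wd, Cnt x r (s.val v) ∧
      ¬ (2 :: x :: r).Sublist (t.val v)) := by
    intro x
    have h : Df (Option V) (fun w => Cnt x ((WTm.var (none : Option V)).val w) ((s.map some).val w) ∧
        ¬ ((WTm.cons 2 (.cons x (.var (none : Option V)))).val w).Sublist ((t.map some).val w)) :=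
      (df_Cnt x _ _).and (Df.nsub _ _)
    refine Df.ex (V := V) (R := fun r v => Cnt x r (s.val v) ∧
      ¬ (2 :: x :: r).Sublist (t.val v)) (h.congr fun w => ?_)
    rw [WTm.val_map, WTm.val_map]
    rfl
  refine ((df_one t).and ((df_notin 2 s).and ((Df.sub (.cons 2 s) t).and ((hx 0).and (hx 1))))).congr
    fun v => ?_
  change RightPart (s.val v) (t.val v) ↔ _ ∧ _ ∧ (2 :: s.val v).Sublist (t.val v) ∧ _
  constructor
  · rintro ⟨z1, hz, h1, h2⟩
    rw [hz]
    refine ⟨?_, h2, ?_, ⟨_, rfl, ?_⟩, ⟨_, rfl, ?_⟩⟩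
    · rw [List.count_append, List.count_cons_self, count_two_zero h1, count_two_zero h2]
    · exact (right_iff h1).2 (List.Sublist.refl _)
    · rw [right_iff h1, ← List.replicate_succ, replicate_sublist]
      omega
    · rw [right_iff h1, ← List.replicate_succ, replicate_sublist]
      omega
  · rintro ⟨h1, h2, h3, ⟨r, hr, h4⟩, ⟨r', hr', h5⟩⟩
    obtain ⟨z1, z2, hz, k1, k2⟩ := split_one h1
    unfold Cnt at hr hr'
    rw [hz, right_iff k1] at h3
    rw [hz, right_iff k1, hr, ← List.replicate_succ, replicate_sublist] at h4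
    rw [hz, right_iff k1, hr', ← List.replicate_succ, replicate_sublist] at h5
    refine ⟨z1, ?_, k1, h2⟩
    rw [hz, eq_of_sublist h3 (by omega) (by omega) (by rw [count_two_zero k2]; omega)]

/-- `p = u ++ [2]` -/
theorem df_snoc {V : Type} (p u : WTm V) :
    Df V (fun v => p.val v = u.val v ++ [2] ∧ 2 ∉ u.val v) := by
  refine ((df_Ends p).and ((df_notin 2 u).and ((Df.sub u p).and
    ((df_eqCount 0 u p).and (df_eqCount 1 u p))))).congr fun v => ?_
  constructor
  · rintro ⟨h, h2⟩
    rw [h]
    refine ⟨⟨_, rfl, h2⟩, h2, List.sublist_append_left _ _, ?_, ?_⟩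
    · rw [List.count_append]; simp
    · rw [List.count_append]; simp
  · rintro ⟨⟨p1, hp, h2⟩, h3, h4, h5, h6⟩
    refine ⟨?_, h3⟩
    rw [hp]
    congr 1
    rw [hp, List.count_append] at h5 h6
    rw [hp] at h4
    have h7 : (u.val v).Sublist p1 := by
      obtain ⟨l1, l2, hl, hl1, hl2⟩ := List.sublist_append_iff.1 h4
      have : l2 = [] := by
        rw [List.eq_nil_iff_forall_not_mem]
        intro x hx
        have h8 := hl2.subset hx
        rw [List.mem_singleton] at h8
        subst h8
        apply h3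
        rw [hl]
        exact List.mem_append_right _ hx
      rw [hl, this, List.append_nil]
      exact hl1
    simp only [List.count_cons, List.count_nil] at h5 h6
    refine (eq_of_sublist h7 ?_ ?_ ?_).symm
    · simp at h5; omega
    · simp at h6; omega
    · rw [count_two_zero h2]; omega

/-- the part of `z` before the letter `2` is `u` -/
def LeftPart (u z : Wd) : Prop := ∃ z2 : Wd, z = u ++ 2 :: z2 ∧ 2 ∉ u ∧ 2 ∉ z2

theorem df_LeftPart {V : Type} (s t : WTm V) : Df V (fun v => LeftPart (s.val v) (t.val v)) := by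
  -- counting the letters `x` before the letter `2`
  have hx : ∀ x : Fin 3, Df V (fun v => ∃ c r : Wd, (Cnt x r (s.val v) ∧ (c = r ++ [2] ∧ 2 ∉ r)) ∧
      ¬ (x :: c).Sublist (t.val v)) := by
    intro x
    have h : Df (Option (Option V)) (fun w =>
        (Cnt x ((WTm.var (none : Option (Option V))).val w) (((s.map some).map some).val w) ∧
        ((WTm.var (some none : Option (Option V))).val w =
          (WTm.var (none : Option (Option V))).val w ++ [2] ∧
          2 ∉ (WTm.var (none : Option (Option V))).val w)) ∧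
        ¬ ((WTm.cons x (.var (some none : Option (Option V)))).val w).Sublist
          (((t.map some).map some).val w)) :=
      ((df_Cnt x _ _).and (df_snoc _ _)).and (Df.nsub _ _)
    refine Df.ex (V := V) (R := fun c v => ∃ r : Wd, (Cnt x r (s.val v) ∧ (c = r ++ [2] ∧ 2 ∉ r)) ∧
      ¬ (x :: c).Sublist (t.val v)) ?_
    refine Df.ex (V := Option V) (R := fun r w => (Cnt x r (s.val fun v => w (some v)) ∧
      (w none = r ++ [2] ∧ 2 ∉ r)) ∧ ¬ (x :: w none).Sublist (t.val fun v => w (some v)))
      (h.congr fun w => ?_)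
    rw [WTm.val_map, WTm.val_map, WTm.val_map, WTm.val_map]
    rfl
  have hp : Df V (fun v => ∃ p : Wd, (p = s.val v ++ [2] ∧ 2 ∉ s.val v) ∧ p.Sublist (t.val v)) := by
    have h : Df (Option V) (fun w =>
        ((WTm.var (none : Option V)).val w = (s.map some).val w ++ [2] ∧
          2 ∉ (s.map some).val w) ∧
        ((WTm.var (none : Option V)).val w).Sublist ((t.map some).val w)) :=
      (df_snoc _ _).and (Df.sub _ _)
    refine Df.ex (V := V) (R := fun p v => (p = s.val v ++ [2] ∧ 2 ∉ s.val v) ∧
      p.Sublist (t.val v)) (h.congr fun w => ?_)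
    rw [WTm.val_map, WTm.val_map]
    rfl
  refine ((df_one t).and (hp.and ((hx 0).and (hx 1)))).congr fun v => ?_
  constructor
  · rintro ⟨z2, hz, h1, h2⟩
    rw [hz]
    have key : ∀ x : Fin 3, x ≠ 2 → ∃ c r : Wd, (Cnt x r (s.val v) ∧ (c = r ++ [2] ∧ 2 ∉ r)) ∧
      ¬ (x :: c).Sublist (s.val v ++ 2 :: z2) := by
      intro x hx2
      refine ⟨_, _, ⟨rfl, rfl, ?_⟩, ?_⟩
      · intro h
        exact hx2 (List.eq_of_mem_replicate h).symm
      · rw [← List.cons_append, left_iff h2, ← List.replicate_succ, replicate_sublist]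
        omega
    refine ⟨?_, ⟨_, ⟨rfl, h1⟩, ?_⟩, key 0 (by decide), key 1 (by decide)⟩
    · rw [List.count_append, List.count_cons_self, count_two_zero h1, count_two_zero h2]
    · exact (left_iff h2).2 (List.Sublist.refl _)
  · rintro ⟨h1, ⟨p, ⟨hp, h2⟩, h3⟩, ⟨c, r, ⟨hr, hc, -⟩, h4⟩, ⟨c', r', ⟨hr', hc', -⟩, h5⟩⟩
    obtain ⟨z1, z2, hz, k1, k2⟩ := split_one h1
    unfold Cnt at hr hr'
    rw [hz, hp, left_iff k2] at h3
    rw [hz, hc, hr, ← List.cons_append, left_iff k2, ← List.replicate_succ,
      replicate_sublist] at h4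
    rw [hz, hc', hr', ← List.cons_append, left_iff k2, ← List.replicate_succ,
      replicate_sublist] at h5
    refine ⟨z2, ?_, h2, k2⟩
    rw [hz, eq_of_sublist h3 (by omega) (by omega) (by rw [count_two_zero k1]; omega)]

/-- concatenation of words over the letters `0`, `1` -/
def Conc (u v w : Wd) : Prop := 2 ∉ u ∧ 2 ∉ v ∧ w = u ++ v

theorem df_Conc {V : Type} (s t r : WTm V) :
    Df V (fun v => Conc (s.val v) (t.val v) (r.val v)) := by
  have h : Df (Option V) (fun w => (LeftPart ((s.map some).val w) ((WTm.var none).val w) ∧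
      RightPart ((t.map some).val w) ((WTm.var none).val w)) ∧
      (2 ∉ (r.map some).val w ∧ ((r.map some).val w).Sublist ((WTm.var none).val w) ∧
      ((r.map some).val w).count 0 = ((WTm.var none).val w).count 0 ∧
      ((r.map some).val w).count 1 = ((WTm.var none).val w).count 1)) :=
    ((df_LeftPart _ _).and (df_RightPart _ _)).and ((df_notin 2 _).and ((Df.sub _ _).and
      ((df_eqCount 0 _ _).and (df_eqCount 1 _ _))))
  have h' := Df.ex (V := V) (R := fun z v => (LeftPart (s.val v) z ∧ RightPart (t.val v) z) ∧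
      (2 ∉ r.val v ∧ (r.val v).Sublist z ∧ (r.val v).count 0 = z.count 0 ∧
      (r.val v).count 1 = z.count 1)) (h.congr fun w => by
        rw [WTm.val_map, WTm.val_map, WTm.val_map]
        rfl)
  refine h'.congr fun v => ?_
  constructor
  · rintro ⟨h1, h2, h3⟩
    refine ⟨s.val v ++ 2 :: t.val v, ⟨⟨_, rfl, h1, h2⟩, ⟨_, rfl, h1, h2⟩⟩, ?_, ?_, ?_, ?_⟩
    · rw [h3, List.mem_append]
      tauto
    · rw [h3]
      exact (List.Sublist.refl _).append (List.sublist_cons_self _ _)
    · rw [h3, List.count_append, List.count_append]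
      simp
    · rw [h3, List.count_append, List.count_append]
      simp
  · rintro ⟨z, ⟨⟨z2, hz, h1, h2⟩, ⟨z1, hz', h3, h4⟩⟩, h5, h6, h7, h8⟩
    have e : z2 = t.val v := by
      rw [hz] at hz'
      have h9 : RightPart z2 (s.val v ++ 2 :: z2) := ⟨_, rfl, h1, h2⟩
      have k1 : z2.Sublist (t.val v) := by
        rw [← right_iff (z1 := z1) h3, ← hz', right_iff h1]
      have k2 : (t.val v).Sublist z2 := by
        rw [← right_iff (z1 := s.val v) h1, hz', right_iff h3]
      exact k1.eq_of_length_le k2.length_le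
    refine ⟨h1, h4, ?_⟩
    rw [e] at hz
    subst hz
    have h9 : (r.val v).Sublist (s.val v ++ t.val v) := by
      have := h6.filter (fun x => x ≠ 2)
      have e1 : ∀ l : Wd, 2 ∉ l → l.filter (fun x => x ≠ 2) = l := by
        intro l hl
        rw [List.filter_eq_self]
        intro a ha
        simp only [ne_eq, decide_not, Bool.not_eq_eq_eq_not, Bool.not_true,
          decide_eq_false_iff_not]
        rintro rfl
        exact hl ha
      rw [List.filter_append, List.filter_cons_of_neg (by simp), e1 _ h5, e1 _ h1, e1 _ h4] at this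
      exact this
    refine eq_of_sublist h9 ?_ ?_ ?_
    · rw [h7]; simp [List.count_append]
    · rw [h8]; simp [List.count_append]
    · rw [List.count_append, count_two_zero h1, count_two_zero h4]
      omega

end Pool.Agent.X238.Rpo
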