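import Mathlib
import Pool.Agent.X238.Rpo.Words
import Pool.Agent.H761R3.Sys

set_option autoImplicit false

/-! Addition and multiplication of the numbers `n`, represented by the words `0 ^ n`, and systems of
equations between them. -/

namespace Pool.Agent.X238.Rpo

open Pool.Agent.H761R3.Sys

theorem commute_iff (k : ℕ) : ∀ (m : ℕ) (y : Wd), y.length ≤ m →
    y ++ (List.replicate k 0 ++ [1]) = (List.replicate k 0 ++ [1]) ++ y →
    ∃ j, y.count 1 = j ∧ y.count 0 = j * k := by
  intro m
  induction m with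
  | zero =>
    intro y hy _
    have : y = [] := List.length_eq_zero_iff.1 (by omega)
    subst this
    exact ⟨0, by simp⟩
  | succ m ih =>
    intro y hy h
    set q : Wd := List.replicate k 0 ++ [1] with hq
    have hq1 : q.count 1 = 1 := by
      rw [hq, List.count_append, List.count_replicate]; simp
    have hq0 : q.count 0 = k := by
      rw [hq, List.count_append, List.count_replicate]; simp
    by_cases hy0 : y = []
    · subst hy0
      exact ⟨0, by simp⟩
    rcases List.append_eq_append_iff.1 h with ⟨a', h1, h2⟩ | ⟨c', h1, h2⟩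
    · -- `q = y ++ a'`
      by_cases ha : a' = []
      · rw [ha, List.append_nil] at h1
        rw [← h1]
        exact ⟨1, hq1, by rw [hq0, one_mul]⟩
      · exfalso
        have l1 : q.getLast (by simp [hq]) = 1 := by simp [hq]
        have e1 : q.getLast (by simp [hq]) = a'.getLast ha := by
          have : ∀ (l : Wd) (hl : l ≠ []), l = y ++ a' → l.getLast hl = a'.getLast ha := by
            rintro l hl rfl
            exact List.getLast_append_of_ne_nil _ ha
          exact this _ _ h1
        have e2 : q.getLast (by simp [hq]) = y.getLast hy0 := by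
          have : ∀ (l : Wd) (hl : l ≠ []), l = a' ++ y → l.getLast hl = y.getLast hy0 := by
            rintro l hl rfl
            exact List.getLast_append_of_ne_nil _ hy0
          exact this _ _ h2
        have m1 : (1 : Fin 3) ∈ a' := by
          rw [← l1, e1]; exact List.getLast_mem ha
        have m2 : (1 : Fin 3) ∈ y := by
          rw [← l1, e2]; exact List.getLast_mem hy0
        rw [h1, List.count_append] at hq1
        have := List.count_pos_iff.2 m1
        have := List.count_pos_iff.2 m2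
        omega
    · -- `y = q ++ c'`
      rw [h1] at h
      have h3 : c' ++ q = q ++ c' := by
        rw [List.append_assoc] at h
        exact List.append_cancel_left h
      have hl : c'.length ≤ m := by
        have := congrArg List.length h1
        rw [List.length_append] at this
        have : 0 < q.length := by simp [hq]
        omega
      obtain ⟨j, hj1, hj0⟩ := ih c' hl h3
      refine ⟨j + 1, ?_, ?_⟩
      · rw [h1, List.count_append, hq1, hj1]; omega
      · rw [h1, List.count_append, hq0, hj0]; ring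

theorem pow_commute (k j : ℕ) : ∃ y : Wd, 2 ∉ y ∧ y.count 1 = j ∧ y.count 0 = j * k ∧
    y ++ (List.replicate k 0 ++ [1]) = (List.replicate k 0 ++ [1]) ++ y := by
  induction j with
  | zero => exact ⟨[], by simp, by simp, by simp, by simp⟩
  | succ j ih =>
    obtain ⟨y, h1, h2, h3, h4⟩ := ih
    refine ⟨(List.replicate k 0 ++ [1]) ++ y, ?_, ?_, ?_, ?_⟩
    · simp only [List.mem_append, List.mem_replicate, List.mem_singleton, not_or]
      exact ⟨⟨by simp, by decide⟩, h1⟩
    · rw [List.count_append, List.count_append, h2, List.count_replicate]; simp; omega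
    · rw [List.count_append, List.count_append, h3, List.count_replicate]; simp; ring
    · rw [List.append_assoc, h4]

/-- `y` commutes with the word `q` (words over `0`, `1`) -/
def Comm (y q : Wd) : Prop := ∃ w, Conc y q w ∧ Conc q y w

theorem comm_iff {y q : Wd} : Comm y q ↔ 2 ∉ y ∧ 2 ∉ q ∧ y ++ q = q ++ y := by
  constructor
  · rintro ⟨w, ⟨h1, h2, h3⟩, ⟨_, _, h4⟩⟩
    exact ⟨h1, h2, h3 ▸ h4⟩
  · rintro ⟨h1, h2, h3⟩
    exact ⟨_, ⟨h1, h2, rfl⟩, ⟨h2, h1, h3⟩⟩

theorem df_Comm {V : Type} (s t : WTm V) : Df V (fun v => Comm (s.val v) (t.val v)) := by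
  have h : Df (Option V) (fun w => Conc ((s.map some).val w) ((t.map some).val w)
      ((WTm.var none).val w) ∧ Conc ((t.map some).val w) ((s.map some).val w)
      ((WTm.var none).val w)) := (df_Conc _ _ _).and (df_Conc _ _ _)
  exact Df.ex (V := V) (R := fun w v => Conc (s.val v) (t.val v) w ∧ Conc (t.val v) (s.val v) w)
    (h.congr fun w => by rw [WTm.val_map, WTm.val_map]; rfl)

/-- multiplication -/
def Mul (n m p : Wd) : Prop := ∃ k l, n = List.replicate k 0 ∧ m = List.replicate l 0 ∧
  p = List.replicate (k * l) 0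

theorem mul_iff {n m p : Wd} : Mul n m p ↔ ∃ q y y' : Wd, Pw 0 n ∧ Cnt 0 p y ∧ Cnt 0 m y' ∧
    Conc n [1] q ∧ Comm y q ∧ Comm y' [0, 1] ∧ y.count 1 = y'.count 1 := by
  constructor
  · rintro ⟨k, l, rfl, rfl, rfl⟩
    obtain ⟨y, h1, h2, h3, h4⟩ := pow_commute k l
    obtain ⟨y', h1', h2', h3', h4'⟩ := pow_commute 1 l
    have m1 : ∀ j, (2 : Fin 3) ∉ (List.replicate j 0 : Wd) := by simp
    refine ⟨List.replicate k 0 ++ [1], y, y', ⟨k, rfl⟩, ?_, ?_, ⟨m1 k, by simp, rfl⟩,
      comm_iff.2 ⟨h1, ?_, h4⟩, comm_iff.2 ⟨h1', by simp, ?_⟩, ?_⟩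
    · unfold Cnt; rw [h3, mul_comm]
    · unfold Cnt; rw [h3', mul_one]
    · rw [List.mem_append, not_or]
      exact ⟨m1 k, by simp⟩
    · simpa using h4'
    · rw [h2, h2']
  · rintro ⟨q, y, y', ⟨k, rfl⟩, hp, hm, ⟨_, _, rfl⟩, h1, h2, h3⟩
    obtain ⟨-, -, h1⟩ := comm_iff.1 h1
    obtain ⟨-, -, h2⟩ := comm_iff.1 h2
    obtain ⟨j, hj1, hj0⟩ := commute_iff k _ y le_rfl h1
    obtain ⟨j', hj1', hj0'⟩ := commute_iff 1 _ y' le_rfl (by simpa using h2)
    unfold Cnt at hp hm
    refine ⟨k, j', rfl, ?_, ?_⟩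
    · rw [hm, hj0', mul_one]
    · rw [hp, hj0]
      congr 1
      rw [show j = j' by omega, mul_comm]

theorem df_Mul {V : Type} (s t r : WTm V) : Df V (fun v => Mul (s.val v) (t.val v) (r.val v)) := by
  let c : WTm V → WTm (Option (Option (Option V))) := fun t => ((t.map some).map some).map some
  have h : Df (Option (Option (Option V))) (fun w =>
      Pw 0 ((c s).val w) ∧ Cnt 0 ((c r).val w) ((WTm.var (some none)).val w) ∧
      Cnt 0 ((c t).val w) ((WTm.var none).val w) ∧
      Conc ((c s).val w) ((WTm.cons 1 .nil).val w) ((WTm.var (some (some none))).val w) ∧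
      Comm ((WTm.var (some none)).val w) ((WTm.var (some (some none))).val w) ∧
      Comm ((WTm.var none).val w) ((WTm.cons 0 (.cons 1 .nil)).val w) ∧
      ((WTm.var (some none)).val w).count 1 = ((WTm.var none).val w).count 1) :=
    (df_Pw 0 _).and ((df_Cnt 0 _ _).and ((df_Cnt 0 _ _).and ((df_Conc _ _ _).and
      ((df_Comm _ _).and ((df_Comm _ _).and (df_eqCount 1 _ _))))))
  have h' : Df V (fun v => ∃ q y y' : Wd, Pw 0 (s.val v) ∧ Cnt 0 (r.val v) y ∧ Cnt 0 (t.val v) y' ∧
      Conc (s.val v) [1] q ∧ Comm y q ∧ Comm y' [0, 1] ∧ y.count 1 = y'.count 1) := by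
    refine Df.ex (V := V) (R := fun q v => ∃ y y' : Wd, Pw 0 (s.val v) ∧ Cnt 0 (r.val v) y ∧
      Cnt 0 (t.val v) y' ∧ Conc (s.val v) [1] q ∧ Comm y q ∧ Comm y' [0, 1] ∧
      y.count 1 = y'.count 1) ?_
    refine Df.ex (V := Option V) (R := fun y w => ∃ y' : Wd, Pw 0 (s.val fun v => w (some v)) ∧
      Cnt 0 (r.val fun v => w (some v)) y ∧ Cnt 0 (t.val fun v => w (some v)) y' ∧
      Conc (s.val fun v => w (some v)) [1] (w none) ∧ Comm y (w none) ∧ Comm y' [0, 1] ∧
      y.count 1 = y'.count 1) ?_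
    refine Df.ex (V := Option (Option V)) (R := fun y' w =>
      Pw 0 (s.val fun v => w (some (some v))) ∧
      Cnt 0 (r.val fun v => w (some (some v))) (w none) ∧
      Cnt 0 (t.val fun v => w (some (some v))) y' ∧
      Conc (s.val fun v => w (some (some v))) [1] (w (some none)) ∧
      Comm (w none) (w (some none)) ∧ Comm y' [0, 1] ∧
      (w none).count 1 = y'.count 1) (h.congr fun w => ?_)
    simp only [c, WTm.val_map]
    rfl
  exact h'.congr fun v => mul_iff

/-- the gates, for words -/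
def GH (v : ℕ → Wd) : Con → Prop
  | .add i j l => Conc (v i) (v j) (v l)
  | .one i => v i = [0]
  | .mul i j l => Mul (v i) (v j) (v l)

theorem df_GH (c : Con) : Df ℕ (fun v => GH v c) := by
  cases c with
  | add i j l => exact df_Conc (.var i) (.var j) (.var l)
  | one i => exact Df.eq (.var i) (.cons 0 .nil)
  | mul i j l => exact df_Mul (.var i) (.var j) (.var l)

theorem gh_iff (k : ℕ) (x : ℕ → ℕ) (v : ℕ → Wd) (hv : ∀ i < k, v i = List.replicate (x i) 0)
    (c : Con) (hc : c.Below k) : GH v c ↔ c.Holds x := by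
  have m1 : ∀ j, (2 : Fin 3) ∉ (List.replicate j 0 : Wd) := by simp
  have inj : ∀ i j : ℕ, (List.replicate i 0 : Wd) = List.replicate j 0 ↔ i = j := by
    intro i j
    constructor
    · intro h
      simpa using congrArg List.length h
    · rintro rfl; rfl
  cases c with
  | add i j l =>
    obtain ⟨hi, hj, hl⟩ := hc
    simp only [GH, Con.Holds, Conc, hv i hi, hv j hj, hv l hl, List.replicate_append_replicate, inj]
    constructor
    · rintro ⟨-, -, h⟩
      exact h.symm
    · intro h
      exact ⟨m1 _, m1 _, h.symm⟩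
  | one i =>
    have hc : i < k := hc
    simp only [GH, Con.Holds, hv i hc]
    rw [show ([0] : Wd) = List.replicate 1 0 from rfl, inj]
  | mul i j l =>
    obtain ⟨hi, hj, hl⟩ := hc
    simp only [GH, Con.Holds, Mul, hv i hi, hv j hj, hv l hl, inj]
    constructor
    · rintro ⟨a, b, h1, h2, h3⟩
      rw [h1, h2, h3]
    · intro h
      exact ⟨_, _, rfl, rfl, h.symm⟩

/-- recursively enumerable sets in terms of words -/
theorem exists_lits (S : ℕ → Prop) (hS : REPred S) : ∃ (W : Type) (_ : Fintype W)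
    (L : List (Lit (ℕ ⊕ W))), ∀ n, S n ↔ ∃ (v : ℕ → Wd) (w : W → Wd),
      v 0 = List.replicate n 0 ∧ ∀ l ∈ L, l.Holds (Sum.elim v w) := by
  obtain ⟨k, L0, hk, hL0, hS⟩ := exists_sys S hS
  have h1 : Df ℕ (fun v => ∀ i ∈ List.range k, Pw 0 (v i)) :=
    Df.listAll _ fun i _ => df_Pw 0 (.var i)
  have h2 : Df ℕ (fun v => ∀ c ∈ L0, GH v c) := Df.listAll _ fun c _ => df_GH c
  obtain ⟨W, iW, L, hL⟩ := h1.and h2
  refine ⟨W, iW, L, fun n => ?_⟩
  rw [hS n]
  constructor
  · rintro ⟨x, hx, hc⟩
    have h3 := (hL (fun i => List.replicate (x i) 0)).1 ⟨fun i _ => ⟨_, rfl⟩, fun c hc' =>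
      (gh_iff k x _ (fun _ _ => rfl) c (hL0 c hc')).2 (hc c hc')⟩
    obtain ⟨w, hw⟩ := h3
    exact ⟨_, w, by rw [hx], hw⟩
  · rintro ⟨v, w, hv, hl⟩
    obtain ⟨h3, h4⟩ := (hL v).2 ⟨w, hl⟩
    refine ⟨fun i => (v i).length, by simp [hv], fun c hc => ?_⟩
    refine (gh_iff k _ v (fun i hi => ?_) c (hL0 c hc)).1 (h4 c hc)
    obtain ⟨m, hm⟩ := h3 i (List.mem_range.2 hi)
    rw [hm]
    simp

end Pool.Agent.X238.Rpo
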