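import Mathlib

set_option autoImplicit false

/-!
# The recursive path ordering with a partial precedence: definitions

Signatures, ground terms, the congruence of permuting arguments, the recursive path ordering with
status, existential sentences, their truth and their Gödel numbers.
-/

namespace Pool.Agent.X238.Rpo

/-- A finite signature with a precedence and a status function. The function symbols are the
elements of `Fin n`; `ar f` is the arity of `f`; there is at least one constant. The precedence
`prec f g` (in words: `f ≻ g`) is a strict partial order. The status of `f` is `lex` if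
`lex f = true` and `mul` if `lex f = false`. -/
structure Sig where
  n : ℕ
  ar : Fin n → ℕ
  exists_const : ∃ c, ar c = 0
  prec : Fin n → Fin n → Prop
  irrefl : ∀ f, ¬ prec f f
  trans : ∀ f g h, prec f g → prec g h → prec f h
  lex : Fin n → Bool

/-- The precedence is total: any two distinct symbols are comparable. -/
def Sig.Total (S : Sig) : Prop := ∀ f g, f ≠ g → S.prec f g ∨ S.prec g f

/-- Ground terms. -/
inductive Term (S : Sig) : Type
  | app (f : Fin S.n) (ts : Fin (S.ar f) → Term S) : Term S

/-- The congruence `≈` generated by permuting the arguments of symbols with status `mul`. -/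
inductive Eqv (S : Sig) : Term S → Term S → Prop
  | refl (t : Term S) : Eqv S t t
  | symm {s t : Term S} : Eqv S s t → Eqv S t s
  | trans {s t u : Term S} : Eqv S s t → Eqv S t u → Eqv S s u
  | congr (f : Fin S.n) (ss ts : Fin (S.ar f) → Term S) :
      (∀ i, Eqv S (ss i) (ts i)) → Eqv S (.app f ss) (.app f ts)
  | perm (f : Fin S.n) (ts : Fin (S.ar f) → Term S) (σ : Equiv.Perm (Fin (S.ar f))) :
      S.lex f = false → Eqv S (.app f ts) (.app f (ts ∘ σ))

/-- The lexicographic extension of `gt` (modulo `≈`) to tuples of the same length. -/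
def LexExt (S : Sig) (gt : Term S → Term S → Prop) {m : ℕ} (ss ts : Fin m → Term S) : Prop :=
  ∃ i, (∀ j < i, Eqv S (ss j) (ts j)) ∧ gt (ss i) (ts i)

/-- The multiset extension of `gt` modulo `≈`: after removing from the multisets of the `ss i` and of
the `ts j` parts which agree modulo `≈`, the rest `X` of the first one is not empty and every
element of the rest `Y` of the second one is smaller than some element of `X`. -/
def MulExt (S : Sig) (gt : Term S → Term S → Prop) {m : ℕ} (ss ts : Fin m → Term S) : Prop :=
  ∃ (X Y : Set (Fin m)) (π : {i // i ∉ X} ≃ {j // j ∉ Y}), X.Nonempty ∧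
    (∀ i : {i // i ∉ X}, Eqv S (ss i) (ts (π i))) ∧ ∀ j ∈ Y, ∃ i ∈ X, gt (ss i) (ts j)

/-- The right-hand side of the recursive definition of the recursive path ordering. -/
def Clauses (S : Sig) (gt : Term S → Term S → Prop) (s t : Term S) : Prop :=
  (∃ f ss, s = .app f ss ∧ ∃ i, gt (ss i) t ∨ Eqv S (ss i) t) ∨
  (∃ f ss g ts, s = .app f ss ∧ t = .app g ts ∧ S.prec f g ∧ ∀ j, gt s (ts j)) ∨
  (∃ f ss ts, s = .app f ss ∧ t = .app f ts ∧ (∀ j, gt s (ts j)) ∧
    ((S.lex f = true ∧ LexExt S gt ss ts) ∨ (S.lex f = false ∧ MulExt S gt ss ts)))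

/-- `gt` is the recursive path ordering (with status) determined by the signature, the precedence
and the status function: it satisfies the recursive definition. -/
def IsRPO (S : Sig) (gt : Term S → Term S → Prop) : Prop := ∀ s t, gt s t ↔ Clauses S gt s t

/-- Terms with variables `x 0, x 1, …`. -/
inductive Tm (S : Sig) : Type
  | var (i : ℕ) : Tm S
  | app (f : Fin S.n) (ts : Fin (S.ar f) → Tm S) : Tm S

/-- Quantifier-free formulas in the language with the function symbols of the signature, `=` and
`>`. -/
inductive Fm (S : Sig) : Type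
  | eq (s t : Tm S) : Fm S
  | gt (s t : Tm S) : Fm S
  | not (φ : Fm S) : Fm S
  | and (φ ψ : Fm S) : Fm S
  | or (φ ψ : Fm S) : Fm S

/-- The value of a term. -/
def Tm.val {S : Sig} (e : ℕ → Term S) : Tm S → Term S
  | .var i => e i
  | .app f ts => .app f (fun i => (ts i).val e)

/-- The quantifier-free formula holds for the values `e i` of the variables, `>` being interpreted
by `gt`. -/
def Fm.Holds {S : Sig} (gt : Term S → Term S → Prop) (e : ℕ → Term S) : Fm S → Prop
  | .eq s t => s.val e = t.val e
  | .gt s t => gt (s.val e) (t.val e)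
  | .not φ => ¬ φ.Holds gt e
  | .and φ ψ => φ.Holds gt e ∧ ψ.Holds gt e
  | .or φ ψ => φ.Holds gt e ∨ ψ.Holds gt e

/-- Gödel number of a term. -/
def Tm.code {S : Sig} : Tm S → ℕ
  | .var i => Nat.pair 0 i
  | .app f ts => Nat.pair (f + 1) (Encodable.encode (List.ofFn fun i => (ts i).code))

/-- Gödel number of a quantifier-free formula. -/
def Fm.code {S : Sig} : Fm S → ℕ
  | .eq s t => Nat.pair 0 (Nat.pair s.code t.code)
  | .gt s t => Nat.pair 1 (Nat.pair s.code t.code)
  | .not φ => Nat.pair 2 φ.code
  | .and φ ψ => Nat.pair 3 (Nat.pair φ.code ψ.code)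
  | .or φ ψ => Nat.pair 4 (Nat.pair φ.code ψ.code)

/-- The existential fragment of the first-order theory of the ground terms with the ordering `gt`:
the set of the Gödel numbers of the quantifier-free formulas `φ` for which the existential sentence
`∃ x̄, φ(x̄)` is true. -/
def ExTheory (S : Sig) (gt : Term S → Term S → Prop) (n : ℕ) : Prop :=
  ∃ φ : Fm S, φ.code = n ∧ ∃ e : ℕ → Term S, φ.Holds gt e

theorem Tm.code_injective {S : Sig} : Function.Injective (Tm.code (S := S)) := by
  intro s
  induction s with
  | var i =>
    intro t h
    cases t with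
    | var j =>
      simp only [Tm.code, Nat.pair_eq_pair, true_and] at h
      rw [h]
    | app g us =>
      simp only [Tm.code, Nat.pair_eq_pair] at h
      omega
  | app f ts ih =>
    intro t h
    cases t with
    | var j =>
      simp only [Tm.code, Nat.pair_eq_pair] at h
      omega
    | app g us =>
      simp only [Tm.code, Nat.pair_eq_pair, Encodable.encode_inj] at h
      obtain ⟨h1, h2⟩ := h
      have hfg : f = g := Fin.ext (by omega)
      subst hfg
      have h3 := List.ofFn_injective h2
      congr 1
      funext i
      exact ih i (congrFun h3 i)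

theorem Fm.code_injective {S : Sig} : Function.Injective (Fm.code (S := S)) := by
  intro φ
  induction φ with
  | eq s t =>
    intro ψ h
    cases ψ <;> simp only [Fm.code, Nat.pair_eq_pair] at h <;> try omega
    rw [Tm.code_injective h.2.1, Tm.code_injective h.2.2]
  | gt s t =>
    intro ψ h
    cases ψ <;> simp only [Fm.code, Nat.pair_eq_pair] at h <;> try omega
    rw [Tm.code_injective h.2.1, Tm.code_injective h.2.2]
  | not φ ih =>
    intro ψ h
    cases ψ <;> simp only [Fm.code, Nat.pair_eq_pair] at h <;> try omega
    rw [ih h.2]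
  | and φ φ' ih ih' =>
    intro ψ h
    cases ψ <;> simp only [Fm.code, Nat.pair_eq_pair] at h <;> try omega
    rw [ih h.2.1, ih' h.2.2]
  | or φ φ' ih ih' =>
    intro ψ h
    cases ψ <;> simp only [Fm.code, Nat.pair_eq_pair] at h <;> try omega
    rw [ih h.2.1, ih' h.2.2]

end Pool.Agent.X238.Rpo
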