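import Pool.Agent.X238.Rpo.Defs
import Pool.Agent.X238.Rpo.Arith

set_option autoImplicit false

/-! The recursive path ordering for three unary symbols and a constant, with the empty precedence,
is the strict subword ordering; the existential theory is undecidable. -/

namespace Pool.Agent.X238.Rpo

/-- the arities of one constant and three unary symbols -/
def ar0 : Fin 4 → ℕ
  | ⟨0, _⟩ => 0
  | ⟨_ + 1, _⟩ => 1

/-- The signature with one constant and three unary symbols, the empty precedence and the status
function `st`. -/
def unary (st : Fin 4 → Bool) : Sig where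
  n := 4
  ar := ar0
  exists_const := ⟨0, rfl⟩
  prec := fun _ _ => False
  irrefl := fun _ h => h
  trans := fun _ _ _ h _ => h
  lex := st

variable {st : Fin 4 → Bool}

/-- words to terms -/
def toT : Wd → Term (unary st)
  | [] => .app (0 : Fin 4) (fun i => Fin.elim0 i)
  | x :: u => .app (Fin.succ x : Fin 4) (fun _ => toT u)

theorem toT_injective : Function.Injective (toT (st := st)) := by
  intro u
  induction u with
  | nil =>
    intro v h
    cases v with
    | nil => rfl
    | cons y v =>
      rw [toT, toT, Term.app.injEq] at h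
      exact absurd h.1 (Fin.succ_ne_zero y).symm
  | cons x u ih =>
    intro v h
    cases v with
    | nil =>
      rw [toT, toT, Term.app.injEq] at h
      exact absurd h.1 (Fin.succ_ne_zero x)
    | cons y v =>
      rw [toT, toT, Term.app.injEq] at h
      obtain ⟨h1, h2⟩ := h
      have h3 : x = y := Fin.succ_injective _ h1
      subst h3
      have h4 := eq_of_heq h2
      rw [ih (congrFun h4 (0 : Fin 1))]

theorem toT_surjective : Function.Surjective (toT (st := st)) := by
  intro t
  induction t with
  | app f ts ih =>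
    have hf : f = (0 : Fin 4) ∨ ∃ x : Fin 3, f = (Fin.succ x : Fin 4) := by
      induction f using Fin.cases with
      | zero => exact Or.inl rfl
      | succ x => exact Or.inr ⟨x, rfl⟩
    rcases hf with rfl | ⟨x, rfl⟩
    · refine ⟨[], ?_⟩
      rw [toT]
      congr 1
      funext i
      exact Fin.elim0 i
    · obtain ⟨u, hu⟩ := ih (0 : Fin 1)
      refine ⟨x :: u, ?_⟩
      rw [toT]
      congr 1
      funext i
      rw [hu]
      congr 1
      exact (Subsingleton.elim (α := Fin 1) _ _)

theorem ar0_cases (f : Fin 4) : ar0 f = 0 ∨ ar0 f = 1 := by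
  fin_cases f
  · exact Or.inl rfl
  · exact Or.inr rfl
  · exact Or.inr rfl
  · exact Or.inr rfl

instance (f : Fin 4) : Subsingleton (Fin ((unary st).ar f)) := by
  change Subsingleton (Fin (ar0 f))
  rcases ar0_cases f with h | h <;> rw [h] <;> infer_instance

theorem eqv_iff (s t : Term (unary st)) : Eqv (unary st) s t ↔ s = t := by
  constructor
  · intro h
    induction h with
    | refl => rfl
    | symm _ ih => exact ih.symm
    | trans _ _ ih1 ih2 => exact ih1.trans ih2
    | congr f ss ts _ ih =>
      congr 1
      funext i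
      exact ih i
    | perm f ts σ _ =>
      congr 1
      funext i
      simp only [Function.comp]
      congr 1
      exact Subsingleton.elim (α := Fin ((unary st).ar f)) _ _
  · rintro rfl
    exact .refl _

/-- the clauses for words -/
def C (gt : Term (unary st) → Term (unary st) → Prop) (u v : Wd) : Prop :=
  ∃ x u', u = x :: u' ∧ ((gt (toT u') (toT v) ∨ u' = v) ∨
    ∃ v', v = x :: v' ∧ gt (toT u) (toT v') ∧ gt (toT u') (toT v'))

theorem lexExt_iff (gt : Term (unary st) → Term (unary st) → Prop)
    (ss ts : Fin 1 → Term (unary st)) : LexExt (unary st) gt ss ts ↔ gt (ss 0) (ts 0) := by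
  constructor
  · rintro ⟨i, -, h⟩
    have : i = 0 := Subsingleton.elim _ _
    subst this
    exact h
  · intro h
    exact ⟨0, fun j hj => absurd hj (by simp), h⟩

theorem mulExt_iff (gt : Term (unary st) → Term (unary st) → Prop)
    (ss ts : Fin 1 → Term (unary st)) : MulExt (unary st) gt ss ts ↔ gt (ss 0) (ts 0) := by
  constructor
  · rintro ⟨X, Y, π, ⟨i, hi⟩, h1, h2⟩
    have i0 : i = 0 := Subsingleton.elim _ _
    subst i0
    have hY : (0 : Fin 1) ∈ Y := by
      by_contra hc
      obtain ⟨k, hk⟩ := π.symm ⟨0, hc⟩
      have k0 : k = 0 := Subsingleton.elim _ _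
      subst k0
      exact hk hi
    obtain ⟨k, hk, h⟩ := h2 0 hY
    have k0 : k = 0 := Subsingleton.elim _ _
    subst k0
    exact h
  · intro h
    have e : ∀ i : {i : Fin 1 // i ∉ (Set.univ : Set (Fin 1))}, False := fun i => i.2 trivial
    exact ⟨Set.univ, Set.univ, Equiv.refl _, ⟨0, trivial⟩, fun i => (e i).elim,
      fun j _ => ⟨0, trivial, by rwa [Subsingleton.elim j 0]⟩⟩

theorem clauses_iff (gt : Term (unary st) → Term (unary st) → Prop) (u v : Wd) :
    Clauses (unary st) gt (toT u) (toT v) ↔ C gt u v := by
  constructor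
  · rintro (⟨f, ss, hs, i, h⟩ | ⟨f, ss, g, ts, -, -, h, -⟩ | ⟨f, ss, ts, hs, ht, h1, h2⟩)
    · cases u with
      | nil =>
        rw [toT, Term.app.injEq] at hs
        obtain ⟨h1, h2⟩ := hs
        subst h1
        exact Fin.elim0 i
      | cons x u =>
        rw [toT, Term.app.injEq] at hs
        obtain ⟨h1, h2⟩ := hs
        subst h1
        have h3 := eq_of_heq h2
        subst h3
        refine ⟨x, u, rfl, Or.inl ?_⟩
        rw [eqv_iff] at h
        rcases h with h | h
        · exact Or.inl h
        · exact Or.inr (toT_injective h)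
    · exact h.elim
    · cases u with
      | nil =>
        rw [toT, Term.app.injEq] at hs
        obtain ⟨e1, e2⟩ := hs
        subst e1
        rcases h2 with ⟨-, i, -⟩ | ⟨-, X, Y, π, ⟨i, -⟩, -⟩
        · exact Fin.elim0 i
        · exact Fin.elim0 i
      | cons x u =>
        rw [toT, Term.app.injEq] at hs
        obtain ⟨e1, e2⟩ := hs
        subst e1
        have e3 := eq_of_heq e2
        subst e3
        cases v with
        | nil =>
          rw [toT, Term.app.injEq] at ht
          exact absurd ht.1 (Fin.succ_ne_zero x).symm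
        | cons y v =>
          rw [toT, Term.app.injEq] at ht
          obtain ⟨e1, e2⟩ := ht
          have e1 := Fin.succ_injective _ e1
          subst e1
          have e3 := eq_of_heq e2
          subst e3
          refine ⟨y, u, rfl, Or.inr ⟨v, rfl, h1 (0 : Fin 1), ?_⟩⟩
          rcases h2 with ⟨-, h⟩ | ⟨-, h⟩
          · exact (lexExt_iff gt _ _).1 h
          · exact (mulExt_iff gt _ _).1 h
  · rintro ⟨x, u', rfl, (h | rfl) | ⟨v', rfl, h1, h2⟩⟩
    · exact Or.inl ⟨_, _, rfl, (0 : Fin 1), Or.inl h⟩
    · exact Or.inl ⟨_, _, rfl, (0 : Fin 1), Or.inr (.refl _)⟩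
    · refine Or.inr (Or.inr ⟨_, _, _, rfl, rfl, fun _ => h1, ?_⟩)
      cases hst : st (Fin.succ x)
      · exact Or.inr ⟨hst, (mulExt_iff gt _ _).2 h2⟩
      · exact Or.inl ⟨hst, (lexExt_iff gt _ _).2 h2⟩

/-- the strict subword ordering -/
def SS (v u : Wd) : Prop := v.Sublist u ∧ v ≠ u

theorem C_iff (gt : Term (unary st) → Term (unary st) → Prop) (u v : Wd)
    (ih : ∀ u' v' : Wd, u'.length + v'.length < u.length + v.length →
      (gt (toT u') (toT v') ↔ SS v' u')) : C gt u v ↔ SS v u := by
  constructor
  · rintro ⟨x, u', rfl, (h | rfl) | ⟨v', rfl, h1, h2⟩⟩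
    · rw [ih _ _ (by simp)] at h
      refine ⟨h.1.cons _, fun e => ?_⟩
      have := h.1.length_le
      rw [e, List.length_cons] at this
      omega
    · exact ⟨List.sublist_cons_self _ _, fun e => by simpa using congrArg List.length e⟩
    · rw [ih _ _ (by simp; omega)] at h2
      exact ⟨h2.1.cons_cons _, fun e => h2.2 (List.cons.inj e).2⟩
  · rintro ⟨h1, h2⟩
    cases h1 with
    | slnil => exact absurd rfl h2
    | cons x h =>
      rename_i u'
      refine ⟨x, u', rfl, Or.inl ?_⟩
      by_cases e : u' = v
      · exact Or.inr e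
      · rw [ih _ _ (by simp)]
        exact Or.inl ⟨h, fun e' => e e'.symm⟩
    | cons_cons x h =>
      rename_i v' u'
      refine ⟨x, u', rfl, Or.inr ⟨v', rfl, ?_, ?_⟩⟩
      · rw [ih _ _ (by simp)]
        refine ⟨h.cons _, fun e => ?_⟩
        have := h.length_le
        rw [e, List.length_cons] at this
        omega
      · rw [ih _ _ (by simp; omega)]
        exact ⟨h, fun e => h2 (by rw [e])⟩

theorem gt_iff {gt : Term (unary st) → Term (unary st) → Prop} (hgt : IsRPO (unary st) gt) :
    ∀ (m : ℕ) (u v : Wd), u.length + v.length < m → (gt (toT u) (toT v) ↔ SS v u) := by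
  intro m
  induction m with
  | zero => intro u v h; omega
  | succ m ih =>
    intro u v h
    rw [hgt, clauses_iff]
    exact C_iff gt u v fun u' v' h' => ih u' v' (by omega)

theorem gt_iff' {gt : Term (unary st) → Term (unary st) → Prop} (hgt : IsRPO (unary st) gt)
    (u v : Wd) : gt (toT u) (toT v) ↔ SS v u := gt_iff hgt _ u v (Nat.lt_succ_self _)

theorem exists_rpo : ∃ gt, IsRPO (unary st) gt := by
  choose g hg using toT_surjective (st := st)
  have hg' : ∀ u, g (toT u) = u := fun u => toT_injective (hg _)
  refine ⟨fun s t => SS (g t) (g s), fun s t => ?_⟩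
  obtain ⟨u, rfl⟩ := toT_surjective s
  obtain ⟨v, rfl⟩ := toT_surjective t
  rw [clauses_iff, C_iff]
  · show SS (g (toT v)) (g (toT u)) ↔ SS v u
    rw [hg', hg']
  · intro u' v' _
    show SS (g (toT v')) (g (toT u')) ↔ SS v' u'
    rw [hg', hg']

theorem rpo_unique {gt gt' : Term (unary st) → Term (unary st) → Prop}
    (h : IsRPO (unary st) gt) (h' : IsRPO (unary st) gt') : gt' = gt := by
  funext s t
  obtain ⟨u, rfl⟩ := toT_surjective s
  obtain ⟨v, rfl⟩ := toT_surjective t
  rw [gt_iff' h, gt_iff' h']

/-- translation of terms -/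
def trT {V : Type} (enc : V → ℕ) : WTm V → Tm (unary st)
  | .var v => .var (enc v)
  | .nil => .app (0 : Fin 4) (fun i => Fin.elim0 i)
  | .cons x t => .app (Fin.succ x : Fin 4) (fun _ => trT enc t)

theorem trT_val {V : Type} (enc : V → ℕ) (e : ℕ → Term (unary st)) (g : V → Wd)
    (h : ∀ v, e (enc v) = toT (g v)) (t : WTm V) : (trT enc t).val e = toT (t.val g) := by
  induction t with
  | var v => exact h v
  | nil =>
    rw [trT, Tm.val, WTm.val, toT]
    congr 1
    funext i
    exact Fin.elim0 i
  | cons x t ih =>
    rw [trT, Tm.val, WTm.val, toT]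
    congr 1
    funext i
    exact ih

/-- translation of literals -/
def trL {V : Type} (enc : V → ℕ) : Lit V → Fm (unary st)
  | .sub s t => .or (.eq (trT enc s) (trT enc t)) (.gt (trT enc t) (trT enc s))
  | .nsub s t => .not (.or (.eq (trT enc s) (trT enc t)) (.gt (trT enc t) (trT enc s)))

theorem trL_holds {V : Type} (enc : V → ℕ) (e : ℕ → Term (unary st)) (g : V → Wd)
    (h : ∀ v, e (enc v) = toT (g v)) {gt : Term (unary st) → Term (unary st) → Prop}
    (hgt : IsRPO (unary st) gt) (l : Lit V) : (trL enc l).Holds gt e ↔ l.Holds g := by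
  have key : ∀ s t : WTm V, ((trT enc s).val e = (trT enc t).val e ∨
      gt ((trT enc t).val e) ((trT enc s).val e)) ↔ (s.val g).Sublist (t.val g) := by
    intro s t
    rw [trT_val enc e g h, trT_val enc e g h, gt_iff' hgt, toT_injective.eq_iff]
    constructor
    · rintro (h | h)
      · rw [h]
      · exact h.1
    · intro h
      by_cases he : s.val g = t.val g
      · exact Or.inl he
      · exact Or.inr ⟨h, he⟩
  cases l with
  | sub s t => exact key s t
  | nsub s t => exact not_congr (key s t)

/-- translation of lists of literals -/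
def trLs {V : Type} (enc : V → ℕ) : List (Lit V) → Fm (unary st)
  | [] => .eq (trT enc .nil) (trT enc .nil)
  | l :: L => .and (trL enc l) (trLs enc L)

theorem trLs_holds {V : Type} (enc : V → ℕ) (e : ℕ → Term (unary st)) (g : V → Wd)
    (h : ∀ v, e (enc v) = toT (g v)) {gt : Term (unary st) → Term (unary st) → Prop}
    (hgt : IsRPO (unary st) gt) (L : List (Lit V)) :
    (trLs enc L).Holds gt e ↔ ∀ l ∈ L, l.Holds g := by
  induction L with
  | nil => simp [trLs, Fm.Holds]
  | cons l L ih => rw [trLs, Fm.Holds, ih, trL_holds enc e g h hgt, List.forall_mem_cons]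

/-- numerals -/
def num : ℕ → Tm (unary st)
  | 0 => .app (0 : Fin 4) (fun i => Fin.elim0 i)
  | n + 1 => .app (1 : Fin 4) (fun _ => num n)

theorem num_val (e : ℕ → Term (unary st)) (n : ℕ) : (num n).val e = toT (List.replicate n 0) := by
  induction n with
  | zero =>
    rw [num, Tm.val, List.replicate_zero, toT]
    congr 1
    funext i
    exact Fin.elim0 i
  | succ n ih =>
    rw [num, Tm.val, List.replicate_succ, toT]
    congr 1
    funext i
    exact ih

/-- codes of numerals -/
def numCode (n : ℕ) : ℕ :=
  Nat.rec (Nat.pair 1 0) (fun _ c => Nat.pair 2 (Encodable.encode [c])) n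

theorem num_code (n : ℕ) : (num (st := st) n).code = numCode n := by
  induction n with
  | zero =>
    rw [num, Tm.code, numCode]
    rfl
  | succ n ih =>
    rw [num, Tm.code, numCode]
    have : (List.ofFn fun i : Fin ((unary st).ar (1 : Fin 4)) => (num (st := st) n).code) =
        [(num (st := st) n).code] := by
      change (List.ofFn fun i : Fin 1 => (num (st := st) n).code) = [(num (st := st) n).code]
      simp
    rw [this, ih]
    rfl

theorem numCode_computable : Computable numCode := by
  have h : Computable₂ (fun (_ : ℕ) (q : ℕ × ℕ) => Nat.pair 2 (Encodable.encode [q.2])) := by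
    refine Primrec.to_comp ?_
    refine (Primrec₂.natPair.comp (Primrec.const 2) ?_)
    exact Primrec.encode.comp (Primrec.list_cons.comp (Primrec.snd.comp Primrec.snd)
      (Primrec.const []))
  exact Computable.nat_rec Computable.id (Computable.const (Nat.pair 1 0)) h

theorem reduction {gt : Term (unary st) → Term (unary st) → Prop} (hgt : IsRPO (unary st) gt)
    (A : ℕ → Prop) (hA : REPred A) : A ≤₀ ExTheory (unary st) gt := by
  obtain ⟨W, iW, L, hL⟩ := exists_lits A hA
  classical
  obtain ⟨enc, hen⟩ : ∃ enc : ℕ ⊕ W → ℕ, Function.Injective enc := by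
    have : Countable (ℕ ⊕ W) := inferInstance
    exact exists_injective_nat _
  let Ψ : Fm (unary st) := trLs enc L
  let F : ℕ → Fm (unary st) := fun n => .and (.eq (.var (enc (Sum.inl 0))) (num n)) Ψ
  refine ⟨fun n => (F n).code, ?_, fun n => ?_⟩
  · have e : (fun n => (F n).code) = fun n => Nat.pair 3 (Nat.pair (Nat.pair 0
        (Nat.pair (Nat.pair 0 (enc (Sum.inl 0))) (numCode n))) Ψ.code) := by
      funext n
      simp only [F, Fm.code, num_code, Tm.code]
    rw [e]
    have hp : ∀ (f g : ℕ → ℕ), Computable f → Computable g →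
        Computable (fun n => Nat.pair (f n) (g n)) := fun f g hf hg =>
      (Primrec₂.natPair.to_comp).comp hf hg
    exact hp _ _ (Computable.const _) (hp _ _ (hp _ _ (Computable.const _)
      (hp _ _ (Computable.const _) numCode_computable)) (Computable.const _))
  · rw [hL n]
    constructor
    · rintro ⟨v, w, hv, hl⟩
      let g : ℕ ⊕ W → Wd := Sum.elim v w
      let e : ℕ → Term (unary st) := fun i => toT (g (Function.invFun enc i))
      have he : ∀ v, e (enc v) = toT (g v) := fun v => by
        simp only [e, Function.leftInverse_invFun hen v]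
      refine ⟨F n, rfl, e, ?_, (trLs_holds enc e g he hgt L).2 hl⟩
      simp only [Fm.Holds, Tm.val]
      rw [he, num_val]
      simp only [g, Sum.elim_inl, hv]
    · rintro ⟨φ, hφ, e, h⟩
      have := Fm.code_injective hφ
      subst this
      choose o ho using toT_surjective (st := st)
      let g : ℕ ⊕ W → Wd := fun v => o (e (enc v))
      have he : ∀ v, e (enc v) = toT (g v) := fun v => (ho _).symm
      obtain ⟨h1, h2⟩ := h
      refine ⟨fun i => g (Sum.inl i), fun i => g (Sum.inr i), ?_, ?_⟩
      · simp only [Fm.Holds, Tm.val] at h1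
        rw [he, num_val] at h1
        exact toT_injective h1
      · have h3 := (trLs_holds enc e g he hgt L).1 h2
        have : Sum.elim (fun i => g (Sum.inl i)) (fun i => g (Sum.inr i)) = g := by
          funext i
          cases i <;> rfl
        rw [this]
        exact h3

theorem exists_re_not_computable : ∃ A : ℕ → Prop, REPred A ∧ ¬ ComputablePred A := by
  refine ⟨fun m => (Nat.Partrec.Code.eval (Denumerable.ofNat Nat.Partrec.Code m) 0).Dom, ?_, ?_⟩
  · exact (Nat.Partrec.Code.eval_part.comp (Computable.ofNat Nat.Partrec.Code)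
      (Computable.const 0)).dom_re
  · intro h
    refine ComputablePred.halting_problem 0 ?_
    refine ComputablePred.computable_of_manyOneReducible ⟨Encodable.encode, Computable.encode,
      fun c => ?_⟩ h
    simp only [Denumerable.ofNat_encode]

end Pool.Agent.X238.Rpo
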